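import Pool.Agent.Q263.InvT.Core

/-!
# The inverse Turán number of paths of odd length

For every `t ≥ 1`, the largest number of edges of a graph in which every subgraph with `k` edges
contains a path with `2 t + 1` edges is `C(⌊k / t⌋, 2) + o(k ^ 2)`.

Outline of the upper bound. Let `G` be such a graph. It has at most `2 k` non-isolated vertices,
because star forests contain no path with three edges. Disjoint unions of complete bipartite graphs
`K_{t, m}` contain no path with `2 t + 1` edges. Choose disjoint subgraphs `K_{t, m}` of `G` such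
that the number of leaves minus `s` times the number of blocks is as large as possible. The set `L`
of the leaves has less than `k / t` elements, there are at most `k / s` hubs, and by maximality and
the Kővári–Sós–Turán theorem there are only `o(k ^ 2)` edges inside the set `U` of the other vertices
and between `L` and `U`. So almost all edges of `G` lie inside `L`.

The lower bound comes from a complete graph and the case of paths of the Erdős–Sós theorem.
-/

set_option autoImplicit false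
open Finset
open scoped Classical

namespace Pool.Agent.Results.MP_002b89_co.InverseOddPaths

open Pool.Agent.Q263.InvT

/-- `ex(G, F)`: the largest number of edges of a subgraph of `G` that contains no copy of `F`. -/
noncomputable def exIn {n m : ℕ} (G : SimpleGraph (Fin n)) (F : SimpleGraph (Fin m)) : ℕ :=
  sSup {e | ∃ H : SimpleGraph (Fin n), H ≤ G ∧ F.Free H ∧ H.edgeSet.ncard = e}

/-- The inverse Turán number: the supremum of the numbers of edges of the finite graphs `G` with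
`ex(G, F) < k`. -/
noncomputable def invTuran {m : ℕ} (k : ℕ) (F : SimpleGraph (Fin m)) : ℕ∞ :=
  ⨆ (n : ℕ) (G : SimpleGraph (Fin n)) (_ : exIn G F < k), (G.edgeSet.ncard : ℕ∞)

theorem small_of_exIn {n t k : ℕ} {G : SimpleGraph (Fin n)}
    (h : exIn G (SimpleGraph.pathGraph (2 * t + 2)) < k) : Small G t k := by
  intro H hH hfree
  refine lt_of_le_of_lt ?_ h
  apply le_csSup
  · refine ⟨G.edgeSet.ncard, ?_⟩
    rintro e ⟨H', hH', -, rfl⟩
    exact Set.ncard_le_ncard (SimpleGraph.edgeSet_mono hH') (Set.toFinite _)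
  · exact ⟨H, hH, hfree, rfl⟩

lemma pathGraph_isTree {m : ℕ} : (SimpleGraph.pathGraph (m + 1)).IsTree := by
  rw [SimpleGraph.isTree_iff_connected_and_card]
  refine ⟨SimpleGraph.pathGraph_connected m, ?_⟩
  have h1 : Nat.card (SimpleGraph.pathGraph (m + 1)).edgeSet = m := by
    have hadj : ∀ i : Fin m, (SimpleGraph.pathGraph (m + 1)).Adj i.castSucc i.succ := by
      intro i
      rw [SimpleGraph.pathGraph_adj]
      left
      simp
    let f : Fin m → (SimpleGraph.pathGraph (m + 1)).edgeSet := fun i =>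
      ⟨s(i.castSucc, i.succ), hadj i⟩
    have hf : Function.Bijective f := by
      constructor
      · intro i j hij
        have h2 := congrArg Subtype.val hij
        simp only [f, Sym2.eq, Sym2.rel_iff', Prod.mk.injEq, Prod.swap_prod_mk] at h2
        rcases h2 with ⟨h3, -⟩ | ⟨h3, h4⟩
        · exact Fin.castSucc_injective _ h3
        · have h5 := congrArg Fin.val h3
          have h6 := congrArg Fin.val h4
          simp at h5 h6
          omega
      · rintro ⟨x, hx⟩
        revert hx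
        refine Sym2.ind (fun u v huv => ?_) x
        have huv' := huv
        rw [SimpleGraph.mem_edgeSet, SimpleGraph.pathGraph_adj] at huv'
        rcases huv' with h | h
        · refine ⟨⟨u.val, by have := v.isLt; omega⟩, ?_⟩
          apply Subtype.ext
          simp only [f]
          congr 2
          exact Fin.ext (by simpa using h)
        · refine ⟨⟨v.val, by have := u.isLt; omega⟩, ?_⟩
          apply Subtype.ext
          simp only [f]
          rw [Sym2.eq_swap]
          congr 2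
          exact Fin.ext (by simpa using h)
    rw [← Nat.card_eq_of_bijective f hf, Nat.card_eq_fintype_card, Fintype.card_fin]
  rw [h1, Nat.card_eq_fintype_card, Fintype.card_fin]

/-- Complete graphs. -/
theorem exIn_complete {t q k : ℕ} (hq : t * q < k) :
    exIn (⊤ : SimpleGraph (Fin q)) (SimpleGraph.pathGraph (2 * t + 2)) < k := by
  refine lt_of_le_of_lt ?_ hq
  apply csSup_le'
  rintro e ⟨H, -, hfree, rfl⟩
  by_contra hcon
  push Not at hcon
  have h1 : H.edgeSet.ncard = H.edgeFinset.card := by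
    rw [← SimpleGraph.coe_edgeFinset, Set.ncard_coe_finset]
  obtain ⟨f, hf⟩ := ES903.erdos_sos H (2 * t + 1) (by
    rw [Fintype.card_fin, ← h1]
    have : 2 * t + 1 - 1 = 2 * t := by omega
    rw [this]
    calc 2 * t * q = 2 * (t * q) := by ring
      _ < 2 * H.edgeSet.ncard := by omega) (SimpleGraph.pathGraph (2 * t + 1 + 1)) pathGraph_isTree
    (by rw [Fintype.card_fin])
  exact hfree ⟨⟨⟨f, fun {a b} hab => hf a b hab⟩, f.injective⟩⟩

theorem bound_aux {t n M x s : ℕ} {η : ℝ} (hη : 0 < η) (ht : 1 ≤ t) (hn : n ≤ M)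
    (hx : (x - t * n) ^ t ≤ s * n ^ (2 * t - 1)) (hM : (s : ℝ) < η ^ t * M) :
    (x : ℝ) ≤ t * M + η * (M : ℝ) ^ 2 := by
  by_contra hcon
  push Not at hcon
  have hMpos : (0 : ℝ) < M := by
    rcases Nat.eq_zero_or_pos M with h | h
    · rw [h] at hM
      have : (0 : ℝ) ≤ (s : ℝ) := by positivity
      simp at hM
      linarith
    · exact_mod_cast h
  have hnM : (n : ℝ) ≤ M := by exact_mod_cast hn
  have h1 : η * (M : ℝ) ^ 2 ≤ ((x - t * n : ℕ) : ℝ) := by
    have h2 : (x : ℝ) ≤ ((x - t * n : ℕ) : ℝ) + (t : ℝ) * n := by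
      have : x ≤ (x - t * n) + t * n := by omega
      exact_mod_cast this
    have h3 : (t : ℝ) * n ≤ t * M := by gcongr
    linarith
  have h2 : (η * (M : ℝ) ^ 2) ^ t ≤ s * (M : ℝ) ^ (2 * t - 1) := by
    calc (η * (M : ℝ) ^ 2) ^ t ≤ ((x - t * n : ℕ) : ℝ) ^ t := by gcongr
      _ = (((x - t * n) ^ t : ℕ) : ℝ) := by push_cast; ring
      _ ≤ ((s * n ^ (2 * t - 1) : ℕ) : ℝ) := by exact_mod_cast hx
      _ = (s : ℝ) * (n : ℝ) ^ (2 * t - 1) := by push_cast; ring
      _ ≤ s * (M : ℝ) ^ (2 * t - 1) := by gcongr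
  have h3 : (η * (M : ℝ) ^ 2) ^ t = (η ^ t * M) * (M : ℝ) ^ (2 * t - 1) := by
    rw [mul_pow, ← pow_mul, mul_assoc, ← pow_succ']
    congr 2
    omega
  rw [h3] at h2
  have h4 : η ^ t * M ≤ s := le_of_mul_le_mul_right h2 (by positivity)
  linarith

theorem upper {t k s : ℕ} {η : ℝ} (hη : 0 < η) (ht : 1 ≤ t) (hs : 1 ≤ s)
    (hk : (s : ℝ) + t < η ^ t * (2 * k)) {n : ℕ} {G : SimpleGraph (Fin n)} (hG : Small G t k) :
    (G.edgeSet.ncard : ℝ) ≤ (k : ℝ) ^ 2 / (2 * (t : ℝ) ^ 2) + (2 / s + 6 * η) * (k : ℝ) ^ 2 +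
      3 * t * k := by
  obtain ⟨a, x, y, h, n', ha, hn, hh, hx, hy, he⟩ := core (s := s) ht hG
  have hx' := bound_aux hη ht hn hx (by push_cast; have : (0 : ℝ) ≤ t := by positivity
                                        linarith)
  have hy' := bound_aux hη ht hn hy (by push_cast; linarith)
  have htp : (0 : ℝ) < t := by exact_mod_cast ht
  have hsp : (0 : ℝ) < s := by exact_mod_cast hs
  have ha' : (a : ℝ) ≤ k / t := by
    rw [le_div_iff₀ htp]
    have : ((t * a : ℕ) : ℝ) < k := by exact_mod_cast ha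
    push_cast at this
    linarith
  have hh' : (h : ℝ) ≤ k / s := by
    rw [le_div_iff₀ hsp]
    have : ((s * h : ℕ) : ℝ) ≤ k := by exact_mod_cast hh
    push_cast at this
    linarith
  have hn' : (n' : ℝ) ≤ 2 * k := by exact_mod_cast hn
  have he' : (2 : ℝ) * G.edgeSet.ncard ≤ a * a + 2 * (h * n') + x + 2 * y := by exact_mod_cast he
  have h1 : (a : ℝ) * a ≤ (k / t) * (k / t) := by gcongr
  have h2 : (h : ℝ) * n' ≤ (k / s) * (2 * k) := by gcongr
  push_cast at hx' hy'
  have e1 : (k : ℝ) / t * (k / t) = (k : ℝ) ^ 2 / (t : ℝ) ^ 2 := by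
    field_simp
  have e2 : (k : ℝ) / s * (2 * k) = 2 / s * (k : ℝ) ^ 2 := by
    field_simp
  have e3 : (k : ℝ) ^ 2 / (2 * (t : ℝ) ^ 2) = (k : ℝ) ^ 2 / (t : ℝ) ^ 2 / 2 := by
    field_simp
  rw [e1] at h1
  rw [e2] at h2
  rw [e3]
  nlinarith

/-- For every `t ≥ 1` the inverse Turán number of the path with `2 t + 1` edges is
`C(⌊k / t⌋, 2) + o(k ^ 2)`. -/
theorem result (t : ℕ) (ht : 1 ≤ t) (ε : ℝ) (hε : 0 < ε) :
    ∃ K : ℕ, ∀ k : ℕ, K ≤ k → ∃ m : ℕ, invTuran k (SimpleGraph.pathGraph (2 * t + 2)) = (m : ℕ∞) ∧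
      |(m : ℝ) - ((k / t).choose 2 : ℕ)| ≤ ε * (k : ℝ) ^ 2 := by
  -- the constants
  obtain ⟨s, hs⟩ := exists_nat_gt (8 / ε)
  have hsp : (0 : ℝ) < s := lt_trans (by positivity) hs
  have hs1 : 1 ≤ s := by
    have : (0 : ℝ) < s := hsp
    exact_mod_cast this
  set η : ℝ := ε / 24 with hη
  have hηp : 0 < η := by positivity
  obtain ⟨K1, hK1⟩ := exists_nat_gt (((s : ℝ) + t) / η ^ t)
  obtain ⟨K2, hK2⟩ := exists_nat_gt ((6 * (t : ℝ) + 10) / ε)
  refine ⟨max (max K1 K2) (2 * t), fun k hk => ?_⟩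
  have hk1 : K1 ≤ k := le_trans (le_trans (le_max_left _ _) (le_max_left _ _)) hk
  have hk2 : K2 ≤ k := le_trans (le_trans (le_max_right _ _) (le_max_left _ _)) hk
  have hk3 : 2 * t ≤ k := le_trans (le_max_right _ _) hk
  have hkp : 0 < k := by omega
  have hkr : (0 : ℝ) < k := by exact_mod_cast hkp
  have htp : (0 : ℝ) < t := by exact_mod_cast ht
  have hk1' : (s : ℝ) + t < η ^ t * (2 * k) := by
    have h1 : ((s : ℝ) + t) / η ^ t < k := lt_of_lt_of_le hK1 (by exact_mod_cast hk1)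
    rw [div_lt_iff₀ (by positivity)] at h1
    have h2 : 0 < (k : ℝ) * η ^ t := by positivity
    linarith
  have hk2' : (6 * (t : ℝ) + 10) * k ≤ ε * (k : ℝ) ^ 2 := by
    have h1 : (6 * (t : ℝ) + 10) / ε < k := lt_of_lt_of_le hK2 (by exact_mod_cast hk2)
    rw [div_lt_iff₀ hε] at h1
    nlinarith
  have hs2 : 2 / (s : ℝ) ≤ ε / 4 := by
    rw [div_le_div_iff₀ hsp (by norm_num)]
    rw [div_lt_iff₀ hε] at hs
    linarith
  -- the binomial coefficient
  set q := k / t with hq
  have hq1 : 1 ≤ q := by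
    rw [hq, Nat.one_le_div_iff (by omega)]; omega
  have hqk : q ≤ k := Nat.div_le_self _ _
  have hqlt : (k : ℝ) < (q + 1) * t := by
    have := Nat.lt_div_mul_add (a := k) (b := t) (by omega)
    have h2 : k < (q + 1) * t := by
      calc k < k / t * t + t := this
        _ = (q + 1) * t := by rw [hq]; ring
    exact_mod_cast h2
  have hq2 : (k : ℝ) / t - 1 ≤ q := by
    have : (k : ℝ) / t < q + 1 := by rw [div_lt_iff₀ htp]; exact hqlt
    linarith
  have hκ2 : (2 : ℝ) ≤ (k : ℝ) / t := by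
    rw [le_div_iff₀ htp]; exact_mod_cast hk3
  have hκk : (k : ℝ) / t ≤ k := by
    rw [div_le_iff₀ htp]
    have : (1 : ℝ) ≤ t := by exact_mod_cast ht
    nlinarith
  have hch : ((q.choose 2 : ℕ) : ℝ) = (q : ℝ) * (q - 1) / 2 := by
    rw [Nat.cast_choose_two]
  have hlow : (k : ℝ) ^ 2 / (2 * (t : ℝ) ^ 2) - 2 * k ≤ ((q.choose 2 : ℕ) : ℝ) := by
    rw [hch]
    have e : (k : ℝ) ^ 2 / (2 * (t : ℝ) ^ 2) = ((k : ℝ) / t) ^ 2 / 2 := by
      field_simp
    rw [e]
    nlinarith [mul_le_mul hq2 (by linarith : (k : ℝ) / t - 2 ≤ (q : ℝ) - 1)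
      (by linarith) (by positivity : (0 : ℝ) ≤ (q : ℝ))]
  -- the upper bound
  have hup : ∀ (n : ℕ) (G : SimpleGraph (Fin n)),
      exIn G (SimpleGraph.pathGraph (2 * t + 2)) < k →
      (G.edgeSet.ncard : ℝ) ≤ ((q.choose 2 : ℕ) : ℝ) + ε * (k : ℝ) ^ 2 := by
    intro n G hG
    have h1 := upper hηp ht hs1 hk1' (small_of_exIn hG)
    have h2 : (2 / (s : ℝ) + 6 * η) * (k : ℝ) ^ 2 ≤ (ε / 2) * (k : ℝ) ^ 2 := by
      apply mul_le_mul_of_nonneg_right _ (by positivity)
      rw [hη]; linarith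
    have h3 : 3 * (t : ℝ) * k + 2 * k ≤ ε / 2 * (k : ℝ) ^ 2 := by nlinarith
    linarith
  have hS : invTuran k (SimpleGraph.pathGraph (2 * t + 2)) ≤
      ((⌊((q.choose 2 : ℕ) : ℝ) + ε * (k : ℝ) ^ 2⌋₊ : ℕ) : ℕ∞) := by
    unfold invTuran
    refine iSup_le fun n => iSup_le fun G => iSup_le fun hG => ?_
    have := Nat.le_floor (hup n G hG)
    exact_mod_cast this
  have hfin : invTuran k (SimpleGraph.pathGraph (2 * t + 2)) ≠ ⊤ :=
    ne_top_of_le_ne_top (ENat.natCast_ne_top _) hS
  refine ⟨(invTuran k (SimpleGraph.pathGraph (2 * t + 2))).toNat, (ENat.natCast_toNat hfin).symm, ?_⟩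
  set m := (invTuran k (SimpleGraph.pathGraph (2 * t + 2))).toNat with hm
  have hmS : ((m : ℕ) : ℕ∞) = invTuran k (SimpleGraph.pathGraph (2 * t + 2)) :=
    ENat.natCast_toNat hfin
  have hmup : (m : ℝ) ≤ ((q.choose 2 : ℕ) : ℝ) + ε * (k : ℝ) ^ 2 := by
    rw [← hmS] at hS
    have h1 : m ≤ ⌊((q.choose 2 : ℕ) : ℝ) + ε * (k : ℝ) ^ 2⌋₊ := by exact_mod_cast hS
    exact (Nat.cast_le.mpr h1).trans (Nat.floor_le (by positivity))
  -- the lower bound
  have hlo : (q - 1).choose 2 ≤ m := by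
    have h1 : exIn (⊤ : SimpleGraph (Fin (q - 1))) (SimpleGraph.pathGraph (2 * t + 2)) < k := by
      apply exIn_complete
      have h2 : t * q ≤ k := by rw [hq, mul_comm]; exact Nat.div_mul_le_self _ _
      have h3 : t * (q - 1) + t = t * q := by
        obtain ⟨r, hr⟩ : ∃ r, q = r + 1 := ⟨q - 1, by omega⟩
        rw [hr, Nat.add_sub_cancel]; ring
      omega
    have h2 : (((⊤ : SimpleGraph (Fin (q - 1))).edgeSet.ncard : ℕ) : ℕ∞) ≤
        invTuran k (SimpleGraph.pathGraph (2 * t + 2)) := by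
      unfold invTuran
      exact le_iSup_of_le (q - 1) (le_iSup_of_le ⊤ (le_iSup_of_le h1 le_rfl))
    rw [← hmS] at h2
    have h3 : (⊤ : SimpleGraph (Fin (q - 1))).edgeSet.ncard = (q - 1).choose 2 := by
      rw [← SimpleGraph.coe_edgeFinset, Set.ncard_coe_finset,
        SimpleGraph.card_edgeFinset_top_eq_card_choose_two, Fintype.card_fin]
    rw [h3] at h2
    exact_mod_cast h2
  have hlo' : ((q.choose 2 : ℕ) : ℝ) - k ≤ m := by
    have h1 : q.choose 2 = (q - 1).choose 2 + (q - 1) := by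
      obtain ⟨r, hr⟩ : ∃ r, q = r + 1 := ⟨q - 1, by omega⟩
      rw [hr, Nat.add_sub_cancel, Nat.choose_succ_succ' r 1, Nat.choose_one_right]
      ring
    have h2 : q.choose 2 ≤ m + k := by omega
    have h3 : ((q.choose 2 : ℕ) : ℝ) ≤ (m : ℝ) + k := by exact_mod_cast h2
    linarith
  rw [abs_le]
  constructor
  · have : (k : ℝ) ≤ ε * (k : ℝ) ^ 2 := by nlinarith
    linarith
  · linarith

end Pool.Agent.Results.MP_002b89_co.InverseOddPaths
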